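import Mathlib
import Pool.Agent.R206.Horse.Trop

namespace Pool.Agent.Results.MP_28d764_an.NonPeriodic

open Filter

/-- `x n` is the term with index `n - 2` of the problem. -/
def IsSol (α γ δ C D : ℝ) (x : ℕ → ℝ) : Prop :=
  0 < x 0 ∧ 0 < x 1 ∧ 0 < x 2 ∧
    ∀ n, x (n + 3) = (α + x (n + 2) + γ * x (n + 1) + δ * x n) /
      (x (n + 2) + C * x (n + 1) + D * x n)

/-- a positive solution converging neither to a positive equilibrium nor to any periodic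
sequence -/
def Wild (α γ δ C D : ℝ) (x : ℕ → ℝ) : Prop :=
  IsSol α γ δ C D x ∧
    (∀ L : ℝ, (1 + C + D) * L ^ 2 - (1 + γ + δ) * L - α = 0 → ¬ Tendsto x atTop (nhds L)) ∧
    ∀ p : ℕ → ℝ, (∃ k : ℕ, 1 ≤ k ∧ ∀ n, p (n + k) = p n) →
      ¬ Tendsto (fun n => x n - p n) atTop (nhds 0)

theorem family {g α γ δ C D : ℝ} (hg : 20000 ≤ g) (hα0 : 0 < α) (hα1 : α ≤ 1)
    (hγ0 : 0 < γ) (hγ1 : γ ≤ Real.exp (-10 * g))
    (hδ0 : Real.exp (3 * g) ≤ δ) (hδ1 : δ ≤ 2 * Real.exp (3 * g))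
    (hC0 : Real.exp (4 * g) ≤ C) (hC1 : C ≤ 2 * Real.exp (4 * g))
    (hD0 : 0 < D) (hD1 : D ≤ Real.exp (-20 * g)) :
    ∃ x : ℕ → ℝ, Wild α γ δ C D x := by
  have hP : Pool.Agent.R206.Horse.Par g α γ δ C D :=
    ⟨hg, hα0.le, hα1, hγ0.le, hγ1, hδ0, hδ1, hC0, hC1, hD0.le, hD1⟩
  obtain ⟨x, h1, h2, h3, h4⟩ := Pool.Agent.R206.Horse.exists_nonperiodic hP
  refine ⟨x, ⟨h1 0, h1 1, h1 2, h2⟩, ?_, ?_⟩
  · intro L _ hcon
    refine h4 (fun _ => L) 1 one_pos (fun _ => rfl) ?_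
    have := hcon.sub_const L
    rwa [sub_self] at this
  · rintro p ⟨k, hk, hp⟩
    exact h4 p k hk hp

/-- Affirmative answer to Q1, together with an explicit open region of parameters. -/
theorem result :
    (∃ α γ δ C D : ℝ, 0 < α ∧ 0 < γ ∧ 0 < δ ∧ 0 < C ∧ 0 < D ∧
      ∃ x : ℕ → ℝ, Wild α γ δ C D x) ∧
    ∀ g α γ δ C D : ℝ, 20000 ≤ g → 0 < α → α ≤ 1 → 0 < γ → γ ≤ Real.exp (-10 * g) →
      Real.exp (3 * g) ≤ δ → δ ≤ 2 * Real.exp (3 * g) →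
      Real.exp (4 * g) ≤ C → C ≤ 2 * Real.exp (4 * g) →
      0 < D → D ≤ Real.exp (-20 * g) →
      ∃ x : ℕ → ℝ, Wild α γ δ C D x := by
  constructor
  · refine ⟨1, Real.exp (-10 * 20000), Real.exp (3 * 20000), Real.exp (4 * 20000),
      Real.exp (-20 * 20000), one_pos, Real.exp_pos _, Real.exp_pos _, Real.exp_pos _,
      Real.exp_pos _, ?_⟩
    have h1 := Real.exp_pos (3 * 20000)
    have h2 := Real.exp_pos (4 * 20000)
    exact family le_rfl one_pos le_rfl (Real.exp_pos _) le_rfl le_rfl (by linarith) le_rfl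
      (by linarith) (Real.exp_pos _) le_rfl
  · intro g α γ δ C D hg hα0 hα1 hγ0 hγ1 hδ0 hδ1 hC0 hC1 hD0 hD1
    exact family hg hα0 hα1 hγ0 hγ1 hδ0 hδ1 hC0 hC1 hD0 hD1

end Pool.Agent.Results.MP_28d764_an.NonPeriodic
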